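import Pool.Agent.H62.OWN.Jvc
import Pool.Agent.H3.W.Nlp
import Pool.Agent.H31.W1.H2.GEN.ChT
import Pool.Agent.H31.W1.H80.GEN.Chn

/-!
# Visible gradients are not constant along the lines (classes)

`pair_sel`: a relation of two samples with the same value of `g` has at most the probability of the
same relation with a selected sample. `Clo`: the gradient `T` at the sample is near the
covector `τ`, in the units of the natural box. `jv_ev`: in a class with the thresholds of the chain
labels, an event on which a visible gradient to which the lines are tangent is near a function of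
the line and of the window, with a precision above the threshold of the balls, is small.
`jv_cls`: two independent samples of the same line and window are not close.
-/

set_option autoImplicit false

namespace Pool.W.JVE

open Pool.JVE

open Finset Real MvPolynomial
open Pool.Agent.H49.Ent Pool.Agent.H32.Dense Pool.STK Pool.KA Pool.KSAT Pool.K2S Pool.PB Pool.S6C
open Pool.GEN Pool.CHT
open Pool.LBT (ThrOf)
open Pool.KM7 (P2)


/-! ### A selected sample -/


variable {m : ℕ}

/-! ### Near a covector -/


variable {θ : ℝ} {S : Pool.PB.PCl m} {P : List (Fin m) × Fin m → ℝ → ℝ → ℝ}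

theorem chN_false {J : ℕ} (F : Pool.KA.Fam m J) (c : ℕ → Fin m) (r : ℕ) (K : ℕ → ℕ) (a w e : ℕ)
    (g : ℕ → ℕ) : Pool.W.GEN.ChN F c r K a w e g (fun _ => False) := by
  refine ⟨fun _ _ => 0, fun _ _ => 0, ⟨fun _ _ => ?_, fun _ _ => ?_, fun _ _ _ _ _ _ => rfl,
    fun _ _ _ _ _ _ => rfl, fun _ h => h.elim, fun _ h => h.elim, fun _ h => h.elim⟩⟩ <;>
  · rw [totalDegree_zero]
    exact Nat.zero_le _


end Pool.W.JVE
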